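import Pool.Agent.H34.RM.Rows2

/-!
ROW AP of the two books project (MP_28724c_co): the finite `w` form of a certificate inequality
for an arbitrary test function `p` with polynomial growth from above.
-/

open Finset

namespace Pool.Agent.H28.RM

open Pool.Agent.H34.RM

theorem exp_low {x : ℝ} {n : ℕ} (hn : 0 < n) (hx : |x| ≤ n / 2) :
    Real.exp (x - 2 * x ^ 2 / n) ≤ (1 + x / n) ^ n := by
  have hn' : (0:ℝ) < n := by exact_mod_cast hn
  obtain ⟨u, hu⟩ : ∃ u : ℝ, u = x / n := ⟨_, rfl⟩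
  have hu1 : -(1/2) ≤ u := by
    rw [hu, le_div_iff₀ hn']
    have := neg_abs_le x
    linarith
  have hpos : 0 < 1 + u := by linarith
  have hlog : u - 2 * u ^ 2 ≤ Real.log (1 + u) := by
    have h1 := Real.one_sub_inv_le_log_of_pos hpos
    have h2 : u - 2 * u ^ 2 ≤ 1 - (1 + u)⁻¹ := by
      have : 1 - (1 + u)⁻¹ = u / (1 + u) := by
        field_simp
        ring
      rw [this, le_div_iff₀ hpos]
      have : 0 ≤ u ^ 2 * (1 + 2 * u) := mul_nonneg (sq_nonneg u) (by linarith)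
      nlinarith
    linarith
  have h3 : x - 2 * x ^ 2 / n = n * (u - 2 * u ^ 2) := by
    rw [hu]
    field_simp
  rw [h3, ← hu]
  calc Real.exp (n * (u - 2 * u ^ 2)) ≤ Real.exp (n * Real.log (1 + u)) := by
        apply Real.exp_le_exp.mpr
        exact mul_le_mul_of_nonneg_left hlog hn'.le
    _ = (1 + u) ^ n := by
        rw [← Real.log_pow, Real.exp_log (pow_pos hpos n)]

theorem exp_up {x : ℝ} {n : ℕ} (hn : 0 < n) (hx : 0 ≤ 1 + x / n) :
    (1 + x / n) ^ n ≤ Real.exp x := by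
  have hn' : (0:ℝ) < n := by exact_mod_cast hn
  calc (1 + x / n) ^ n ≤ (Real.exp (x / n)) ^ n := by
        apply pow_le_pow_left₀ hx
        have := Real.add_one_le_exp (x / n)
        linarith
    _ = Real.exp x := by
        rw [← Real.exp_nat_mul]
        congr 1
        field_simp

/-- lower bound for `(max (1+y/w) 0)^w` for `y` near `y'`, `|y'| ≤ K` -/
theorem claim2 (K η : ℝ) (hK : 0 ≤ K) (hη : 0 < η) :
    ∃ (e1 : ℝ) (W : ℕ), 0 < e1 ∧ e1 ≤ 1 / 2 ∧ 1 ≤ W ∧ ∀ w : ℕ, W ≤ w → ∀ y y' : ℝ, |y'| ≤ K →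
      |y - y'| ≤ e1 * |y'| → Real.exp y' - η ≤ (max (1 + y / w) 0) ^ w := by
  have heK := Real.exp_pos K
  obtain ⟨e1, he1⟩ : ∃ e1 : ℝ, e1 = min (1 / 2) (η / (2 * (K + 1) * Real.exp K)) := ⟨_, rfl⟩
  have he1pos : 0 < e1 := by
    rw [he1]; apply lt_min (by norm_num); positivity
  have he1half : e1 ≤ 1 / 2 := by rw [he1]; exact min_le_left _ _
  have he1one : e1 ≤ 1 := by linarith
  have he1K : e1 * K * Real.exp K ≤ η / 2 := by
    have : e1 ≤ η / (2 * (K + 1) * Real.exp K) := by rw [he1]; exact min_le_right _ _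
    rw [le_div_iff₀ (by positivity)] at this
    nlinarith [mul_pos he1pos heK]
  obtain ⟨W, hW⟩ := exists_nat_ge (4 * K + 16 * K ^ 2 * Real.exp K / η + 1)
  have hpos : 0 ≤ 16 * K ^ 2 * Real.exp K / η := by positivity
  have hW1 : 1 ≤ W := by
    have : (1:ℝ) ≤ W := by linarith
    exact_mod_cast this
  refine ⟨e1, W, he1pos, he1half, hW1, ?_⟩
  intro w hw y y' hy' hyy
  have hww : (W:ℝ) ≤ w := by exact_mod_cast hw
  have hw' : (0:ℝ) < w := by linarith
  have hw0 : 0 < w := by exact_mod_cast hw'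
  have hd : |y - y'| ≤ K := by
    calc |y - y'| ≤ e1 * |y'| := hyy
      _ ≤ 1 * K := mul_le_mul he1one hy' (abs_nonneg _) zero_le_one
      _ = K := one_mul K
  have hy2 : |y| ≤ 2 * K := by
    have : |y| ≤ |y - y'| + |y'| := by
      have := abs_add_le (y - y') y'
      simpa using this
    linarith
  have hyw : |y| ≤ w / 2 := by linarith
  have h1 := exp_low hw0 hyw
  have hq : -(1/2) ≤ y / w := by
    rw [le_div_iff₀ hw']
    have := neg_abs_le y
    linarith
  have hmax : max (1 + y / w) 0 = 1 + y / w := max_eq_left (by linarith)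
  rw [hmax]
  have e0 : y' - (e1 * K + 8 * K ^ 2 / w) ≤ y - 2 * y ^ 2 / w := by
    have a1 : y' - y ≤ e1 * K := by
      have : |y - y'| ≤ e1 * K := le_trans hyy (mul_le_mul_of_nonneg_left hy' he1pos.le)
      have := (abs_le.mp this).1
      linarith
    have a2 : y ^ 2 ≤ (2 * K) ^ 2 := by
      rw [← sq_abs y]
      exact pow_le_pow_left₀ (abs_nonneg y) hy2 2
    have a3 : 2 * y ^ 2 / w ≤ 8 * K ^ 2 / w := by
      apply div_le_div_of_nonneg_right _ hw'.le
      linarith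
    linarith
  have e1' : Real.exp (y' - (e1 * K + 8 * K ^ 2 / w)) ≤ (1 + y / w) ^ w :=
    le_trans (Real.exp_le_exp.mpr e0) h1
  have e2 : Real.exp (y' - (e1 * K + 8 * K ^ 2 / w))
      = Real.exp y' * Real.exp (-(e1 * K + 8 * K ^ 2 / w)) := by
    rw [← Real.exp_add]; congr 1
  have e3 := Real.add_one_le_exp (-(e1 * K + 8 * K ^ 2 / w))
  have e4 : Real.exp y' ≤ Real.exp K := Real.exp_le_exp.mpr (le_trans (le_abs_self _) hy')
  have e5 : 8 * K ^ 2 / w * Real.exp K ≤ η / 2 := by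
    rw [div_mul_eq_mul_div, div_le_iff₀ hw']
    have : 16 * K ^ 2 * Real.exp K / η ≤ w := by linarith
    rw [div_le_iff₀ hη] at this
    linarith
  have e6 : 0 ≤ e1 * K + 8 * K ^ 2 / w := by positivity
  have e7 : Real.exp y' * (e1 * K + 8 * K ^ 2 / w) ≤ Real.exp K * (e1 * K + 8 * K ^ 2 / w) :=
    mul_le_mul_of_nonneg_right e4 e6
  rw [e2] at e1'
  have e8 : Real.exp y' * (-(e1 * K + 8 * K ^ 2 / w) + 1)
      ≤ Real.exp y' * Real.exp (-(e1 * K + 8 * K ^ 2 / w)) :=
    mul_le_mul_of_nonneg_left e3 (Real.exp_pos y').le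
  linarith

/-- the same for all `y' ≤ T` -/
theorem claim3 (T η : ℝ) (hT : 0 ≤ T) (hη : 0 < η) :
    ∃ (e1 : ℝ) (W : ℕ), 0 < e1 ∧ e1 ≤ 1 / 2 ∧ 1 ≤ W ∧ ∀ w : ℕ, W ≤ w → ∀ y y' : ℝ, y' ≤ T →
      |y - y'| ≤ e1 * |y'| → Real.exp y' - η ≤ (max (1 + y / w) 0) ^ w := by
  obtain ⟨e1, W, h1, h2, h3, h4⟩ := claim2 (max T (-Real.log η)) η
    (le_trans hT (le_max_left _ _)) hη
  refine ⟨e1, W, h1, h2, h3, ?_⟩
  intro w hw y y' hy' hyy
  by_cases hb : -(max T (-Real.log η)) ≤ y'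
  · apply h4 w hw y y' _ hyy
    rw [abs_le]
    exact ⟨hb, le_trans hy' (le_max_left _ _)⟩
  · push_neg at hb
    have : y' ≤ Real.log η := by
      have := le_max_right T (-Real.log η)
      linarith
    have h5 : Real.exp y' ≤ η := by
      rw [← Real.exp_log hη]; exact Real.exp_le_exp.mpr this
    have h6 : 0 ≤ (max (1 + y / w) 0) ^ w := pow_nonneg (le_max_right _ _) _
    linarith

/-- `(1+x/n)^n` is nondecreasing in `n` -/
theorem mono_pow {x : ℝ} (hx : 0 ≤ x) {m n : ℕ} (hm : 0 < m) (hmn : m ≤ n) :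
    (1 + x / m) ^ m ≤ (1 + x / n) ^ n := by
  have hm' : (0:ℝ) < m := by exact_mod_cast hm
  have hn' : (0:ℝ) < n := lt_of_lt_of_le hm' (by exact_mod_cast hmn)
  have hle : (m:ℝ) ≤ n := by exact_mod_cast hmn
  have h0 : (0:ℝ) ≤ 1 + x / m := by positivity
  have hB : (1 + x / m) ^ ((m:ℝ) / n) ≤ 1 + (m:ℝ) / n * (x / m) := by
    apply rpow_one_add_le_one_add_mul_self
    · have : 0 ≤ x / m := by positivity
      linarith
    · positivity
    · rw [div_le_one hn']; exact hle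
  have h1 : 1 + (m:ℝ) / n * (x / m) = 1 + x / n := by field_simp
  rw [h1] at hB
  have h2 : ((1 + x / m) ^ ((m:ℝ) / n)) ^ n = (1 + x / m) ^ m := by
    rw [← Real.rpow_natCast, ← Real.rpow_mul h0]
    rw [div_mul_cancel₀ _ hn'.ne', Real.rpow_natCast]
  rw [← h2]
  exact pow_le_pow_left₀ (Real.rpow_nonneg h0 _) hB n

/-- growth: the finite exponential beats every polynomial -/
theorem growth (C ε : ℝ) (m : ℕ) (hC : 0 ≤ C) (hε : 0 < ε) :
    ∃ T : ℝ, 1 ≤ T ∧ ∀ w : ℕ, m + 1 ≤ w → ∀ y u : ℝ, T ≤ u → u / 2 ≤ y →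
      C * (1 + 2 * u ^ m) ≤ ε * (max (1 + y / w) 0) ^ w := by
  have hM : (0:ℝ) < 2 * ((m + 1 : ℕ) : ℝ) := by
    have : (0:ℝ) < ((m + 1 : ℕ) : ℝ) := by exact_mod_cast Nat.succ_pos m
    linarith
  refine ⟨max 1 (3 * C * (2 * ((m + 1 : ℕ) : ℝ)) ^ (m + 1) / ε), le_max_left _ _, ?_⟩
  intro w hw y u hu hy
  have hu1 : 1 ≤ u := le_trans (le_max_left _ _) hu
  have hu2 : 3 * C * (2 * ((m + 1 : ℕ) : ℝ)) ^ (m + 1) / ε ≤ u := le_trans (le_max_right _ _) hu
  have hw0 : 0 < w := by omega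
  have hw' : (0:ℝ) < w := by exact_mod_cast hw0
  have h1 : (u / (2 * ((m + 1 : ℕ) : ℝ))) ^ (m + 1) ≤ (max (1 + y / w) 0) ^ w := by
    calc (u / (2 * ((m + 1 : ℕ) : ℝ))) ^ (m + 1)
        ≤ (1 + (u / 2) / ((m + 1 : ℕ) : ℝ)) ^ (m + 1) := by
          apply pow_le_pow_left₀ (by positivity)
          have : u / (2 * ((m + 1 : ℕ) : ℝ)) = (u / 2) / ((m + 1 : ℕ) : ℝ) := by
            rw [div_div]
          rw [this]
          linarith
      _ ≤ (1 + (u / 2) / w) ^ w := mono_pow (by linarith) (Nat.succ_pos m) hw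
      _ ≤ (max (1 + y / w) 0) ^ w := by
          apply pow_le_pow_left₀ (by positivity)
          apply le_trans _ (le_max_left _ _)
          have : (u / 2) / w ≤ y / w := div_le_div_of_nonneg_right hy hw'.le
          linarith
  have h2 : C * (1 + 2 * u ^ m) ≤ ε * (u / (2 * ((m + 1 : ℕ) : ℝ))) ^ (m + 1) := by
    have hum : 1 ≤ u ^ m := one_le_pow₀ hu1
    have a1 : C * (1 + 2 * u ^ m) ≤ 3 * C * u ^ m := by nlinarith
    have a2 : 3 * C * (2 * ((m + 1 : ℕ) : ℝ)) ^ (m + 1) ≤ u * ε := by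
      rwa [div_le_iff₀ hε] at hu2
    rw [div_pow, mul_div_assoc', le_div_iff₀ (by positivity)]
    calc C * (1 + 2 * u ^ m) * (2 * ((m + 1 : ℕ) : ℝ)) ^ (m + 1)
        ≤ (3 * C * u ^ m) * (2 * ((m + 1 : ℕ) : ℝ)) ^ (m + 1) :=
          mul_le_mul_of_nonneg_right a1 (by positivity)
      _ = (3 * C * (2 * ((m + 1 : ℕ) : ℝ)) ^ (m + 1)) * u ^ m := by ring
      _ ≤ (u * ε) * u ^ m := mul_le_mul_of_nonneg_right a2 (by positivity)
      _ = ε * u ^ (m + 1) := by ring
  exact le_trans h2 (mul_le_mul_of_nonneg_left h1 hε.le)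

theorem apGen (p : ℝ → ℝ → ℝ) (la l1 t C0 : ℝ) (m : ℕ) (hla : 0 ≤ la) (hl1 : 0 ≤ l1)
    (hC0 : 0 ≤ C0) (ht0 : 0 ≤ t) (ht1 : t ≤ 1)
    (hcert : ∀ y z : ℝ, p y z ≤ la * Real.exp (y + t * z) + l1 * (Real.exp y + Real.exp z))
    (hgrow : ∀ y z : ℝ, p y z ≤ C0 * (1 + (max y 0) ^ m + (max z 0) ^ m)) :
    ∀ ε : ℝ, 0 < ε → ∃ (e1 : ℝ) (W : ℕ), 0 < e1 ∧ e1 ≤ 1 / 2 ∧ 1 ≤ W ∧
      ∀ w w' : ℕ, W ≤ w → W ≤ w' →
        ∀ y z y' z' : ℝ, |y - y'| ≤ e1 * |y'| → |z - z'| ≤ e1 * |z'| →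
          p y' z'
            ≤ la * ((max (1 + y / w) 0) ^ w * (max (1 + t * z / w') 0) ^ w')
              + l1 * ((max (1 + y / w) 0) ^ w + (max (1 + z / w') 0) ^ w')
              + ε * (1 + (max (1 + y / w) 0) ^ w + (max (1 + z / w') 0) ^ w') := by
  intro ε hε
  obtain ⟨T, hT1, hT⟩ := growth C0 ε m hC0 hε
  have hT0 : 0 ≤ T := by linarith
  obtain ⟨E, hE⟩ : ∃ E : ℝ, E = Real.exp T := ⟨_, rfl⟩
  have hE0 : 0 < E := by rw [hE]; exact Real.exp_pos T
  obtain ⟨η, hη⟩ : ∃ η : ℝ, η = ε / (2 * (1 + la) * (E + 1) + 2 * (1 + l1) + 2) := ⟨_, rfl⟩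
  have hden : 0 < 2 * (1 + la) * (E + 1) + 2 * (1 + l1) + 2 := by positivity
  have hηpos : 0 < η := by rw [hη]; positivity
  have hηb : η * (2 * (1 + la) * (E + 1) + 2 * (1 + l1) + 2) = ε := by
    rw [hη]; field_simp
  obtain ⟨e1, W, he1, he1h, hW1, hc⟩ := claim3 T η hT0 hηpos
  refine ⟨e1, max W (m + 1), he1, he1h, le_trans hW1 (le_max_left _ _), ?_⟩
  intro w w' hww hww' y z y' z' hy hz
  have hwW : W ≤ w := le_trans (le_max_left _ _) hww
  have hwW' : W ≤ w' := le_trans (le_max_left _ _) hww'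
  have hwm : m + 1 ≤ w := le_trans (le_max_right _ _) hww
  have hwm' : m + 1 ≤ w' := le_trans (le_max_right _ _) hww'
  have hA0 : 0 ≤ (max (1 + y / w) 0) ^ w := pow_nonneg (le_max_right _ _) _
  have hB0 : 0 ≤ (max (1 + z / w') 0) ^ w' := pow_nonneg (le_max_right _ _) _
  have hBt0 : 0 ≤ (max (1 + t * z / w') 0) ^ w' := pow_nonneg (le_max_right _ _) _
  by_cases hy1 : y' ≤ T
  · by_cases hz1 : z' ≤ T
    · -- both bounded above
      have r1 := hc w hwW y y' hy1 hy
      have r2 := hc w' hwW' z z' hz1 hz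
      have r3 := hc w' hwW' (t * z) (t * z') (by
        rcases le_total 0 z' with h | h
        · nlinarith
        · have : t * z' ≤ 0 := mul_nonpos_of_nonneg_of_nonpos ht0 h
          linarith) (by
        rw [← mul_sub, abs_mul, abs_mul, abs_of_nonneg ht0]
        calc t * |z - z'| ≤ t * (e1 * |z'|) := mul_le_mul_of_nonneg_left hz ht0
          _ = e1 * (t * |z'|) := by ring)
      obtain ⟨A, hA⟩ : ∃ A : ℝ, A = (max (1 + y / w) 0) ^ w := ⟨_, rfl⟩
      obtain ⟨B, hB⟩ : ∃ B : ℝ, B = (max (1 + z / w') 0) ^ w' := ⟨_, rfl⟩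
      obtain ⟨Bt, hBt⟩ : ∃ Bt : ℝ, Bt = (max (1 + t * z / w') 0) ^ w' := ⟨_, rfl⟩
      rw [← hA] at r1 hA0
      rw [← hB] at r2 hB0
      rw [← hBt] at r3 hBt0
      rw [← hA, ← hB, ← hBt]
      have b1 : Real.exp y' ≤ E := by rw [hE]; exact Real.exp_le_exp.mpr hy1
      have b2 : Real.exp (t * z') ≤ E := by
        rw [hE]
        apply Real.exp_le_exp.mpr
        rcases le_total 0 z' with h | h
        · nlinarith
        · have : t * z' ≤ 0 := mul_nonpos_of_nonneg_of_nonpos ht0 h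
          linarith
      have e1' := Real.exp_pos y'
      have e2' := Real.exp_pos (t * z')
      -- product
      have r4 : Real.exp (y' + t * z') ≤ A * Bt + 2 * η * (E + 1) := by
        rw [Real.exp_add]
        -- exp y' * exp tz' = (exp y' - eta)_+ ... ; use the case distinction
        by_cases h1 : Real.exp y' ≤ η
        · have : Real.exp y' * Real.exp (t * z') ≤ η * E :=
            mul_le_mul h1 b2 e2'.le hηpos.le
          have : 0 ≤ A * Bt := mul_nonneg hA0 hBt0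
          nlinarith
        · by_cases h2 : Real.exp (t * z') ≤ η
          · have : Real.exp y' * Real.exp (t * z') ≤ E * η :=
              mul_le_mul b1 h2 e2'.le hE0.le
            have : 0 ≤ A * Bt := mul_nonneg hA0 hBt0
            nlinarith
          · push_neg at h1 h2
            have h3 : (Real.exp y' - η) * (Real.exp (t * z') - η) ≤ A * Bt :=
              mul_le_mul r1 r3 (by linarith) hA0
            have h4 : η * Real.exp y' ≤ η * E := mul_le_mul_of_nonneg_left b1 hηpos.le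
            have h5 : η * Real.exp (t * z') ≤ η * E := mul_le_mul_of_nonneg_left b2 hηpos.le
            nlinarith
      have c0 := hcert y' z'
      have r5 := mul_le_mul_of_nonneg_left r4 hla
      have r6 : l1 * (Real.exp y' + Real.exp z') ≤ l1 * (A + B + 2 * η) :=
        mul_le_mul_of_nonneg_left (by linarith) hl1
      have r7 : ε ≤ ε * (1 + A + B) := by nlinarith
      have r8 : la * (2 * η * (E + 1)) + l1 * (2 * η) ≤ ε := by
        rw [← hηb]
        have : 0 ≤ η * (E + 1) := by positivity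
        nlinarith
      nlinarith
    · -- z' > T
      push_neg at hz1
      have hzpos : 0 < z' := by linarith
      have hz2 : z' / 2 ≤ z := by
        rw [abs_of_pos hzpos] at hz
        have := (abs_le.mp hz).1
        nlinarith
      have g1 := hT w' hwm' z z' hz1.le hz2
      have g2 := hgrow y' z'
      have g3 : (max y' 0) ^ m ≤ z' ^ m := by
        apply pow_le_pow_left₀ (le_max_right _ _)
        apply max_le <;> linarith
      have g4 : max z' 0 = z' := max_eq_left hzpos.le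
      rw [g4] at g2
      have g5 : C0 * (1 + (max y' 0) ^ m + z' ^ m) ≤ C0 * (1 + 2 * z' ^ m) :=
        mul_le_mul_of_nonneg_left (by linarith) hC0
      have g6 : 0 ≤ la * ((max (1 + y / w) 0) ^ w * (max (1 + t * z / w') 0) ^ w') := by
        positivity
      have g7 : 0 ≤ l1 * ((max (1 + y / w) 0) ^ w + (max (1 + z / w') 0) ^ w') := by
        positivity
      have g8 : 0 ≤ ε * (1 + (max (1 + y / w) 0) ^ w) := by positivity
      nlinarith
  · push_neg at hy1
    have hypos : 0 < y' := by linarith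
    have hy2 : y' / 2 ≤ y := by
      rw [abs_of_pos hypos] at hy
      have := (abs_le.mp hy).1
      nlinarith
    have g1 := hT w hwm y y' hy1.le hy2
    have g2 := hgrow y' z'
    have g4 : max y' 0 = y' := max_eq_left hypos.le
    rw [g4] at g2
    have g6 : 0 ≤ la * ((max (1 + y / w) 0) ^ w * (max (1 + t * z / w') 0) ^ w') := by
      positivity
    have g7 : 0 ≤ l1 * ((max (1 + y / w) 0) ^ w + (max (1 + z / w') 0) ^ w') := by
      positivity
    by_cases hz1 : z' ≤ T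
    · have g3 : (max z' 0) ^ m ≤ y' ^ m := by
        apply pow_le_pow_left₀ (le_max_right _ _)
        apply max_le <;> linarith
      have g5 : C0 * (1 + y' ^ m + (max z' 0) ^ m) ≤ C0 * (1 + 2 * y' ^ m) :=
        mul_le_mul_of_nonneg_left (by linarith) hC0
      have g8 : 0 ≤ ε * (1 + (max (1 + z / w') 0) ^ w') := by positivity
      nlinarith
    · push_neg at hz1
      have hzpos : 0 < z' := by linarith
      have hz2 : z' / 2 ≤ z := by
        rw [abs_of_pos hzpos] at hz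
        have := (abs_le.mp hz).1
        nlinarith
      have g1' := hT w' hwm' z z' hz1.le hz2
      have g4' : max z' 0 = z' := max_eq_left hzpos.le
      rw [g4'] at g2
      have h1 : 0 ≤ C0 * y' ^ m := by positivity
      have h2 : 0 ≤ C0 * z' ^ m := by positivity
      nlinarith

end Pool.Agent.H28.RM
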